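import Mathlib

/-! The sieve for two coprime polynomials (Ekedahl): statements. -/

set_option autoImplicit false

open MvPolynomial

namespace Pool.Agent.Helper21K9.SV

/-- The integral vectors with entries of absolute value at most `H`. -/
noncomputable def box (ι : Type) [Fintype ι] [DecidableEq ι] (H : ℕ) : Finset (ι → ℤ) :=
  Fintype.piFinset fun _ => Finset.Icc (-(H : ℤ)) H

/-- The two polynomials have no common factor over the rational numbers. -/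
def Cop {ι : Type} (Φ Ψ : MvPolynomial ι ℤ) : Prop :=
  IsRelPrime (map (Int.castRingHom ℚ) Φ) (map (Int.castRingHom ℚ) Ψ)

/-- [EKA] The number of common zeros modulo `p`. -/
def S_EKA : Prop :=
  ∀ (ι : Type) [Fintype ι] [DecidableEq ι] (Φ Ψ : MvPolynomial ι ℤ), Cop Φ Ψ →
    ∃ C : ℕ, ∀ p : ℕ, ∀ [Fact p.Prime], C < p →
      Nat.card {a : ι → ZMod p // eval₂ (Int.castRingHom (ZMod p)) a Φ = 0 ∧
        eval₂ (Int.castRingHom (ZMod p)) a Ψ = 0} * p ^ 2 ≤ C * p ^ Fintype.card ι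

/-- [EKB] Integral vectors of size at most `H` and primes greater than `H`. -/
def S_EKB : Prop :=
  ∀ (ι : Type) [Fintype ι] [DecidableEq ι] (Φ Ψ : MvPolynomial ι ℤ), Cop Φ Ψ →
    ∀ k : ℕ, ∃ H₀ : ℕ, ∀ H : ℕ, H₀ ≤ H →
      k * Set.ncard {a : ι → ℤ | a ∈ box ι H ∧
        ∃ p : ℕ, p.Prime ∧ H < p ∧ (p : ℤ) ∣ eval a Φ ∧ (p : ℤ) ∣ eval a Ψ} ≤
      (2 * H + 1) ^ Fintype.card ι

/-- [EK] The tail of the sieve in a residue class modulo `P`, where the prime divisors of `P` are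
at most `p₀`. -/
def S_EK : Prop :=
  ∀ (ι : Type) [Fintype ι] [DecidableEq ι] (Φ Ψ : MvPolynomial ι ℤ), Cop Φ Ψ →
    ∃ C : ℕ, ∀ p₀ P : ℕ, C ≤ p₀ → 0 < P → (∀ p : ℕ, p.Prime → p ∣ P → p ≤ p₀) →
      ∀ r : ι → ℤ, ∃ H₀ : ℕ, ∀ H : ℕ, H₀ ≤ H →
        p₀ * P ^ Fintype.card ι * Set.ncard {a : ι → ℤ | a ∈ box ι H ∧
          (∀ i, (P : ℤ) ∣ a i - r i) ∧
          ∃ p : ℕ, p.Prime ∧ p₀ < p ∧ (p : ℤ) ∣ eval a Φ ∧ (p : ℤ) ∣ eval a Ψ} ≤
        C * (2 * H + 1) ^ Fintype.card ι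

end Pool.Agent.Helper21K9.SV
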