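import Pool.Agent.Helper21K9.SV.Stm

/-! The tail of the sieve for two coprime polynomials in a residue class. -/

set_option autoImplicit false

open MvPolynomial Finset

namespace Pool.Agent.Helper21K9.SV

namespace EkL

section affine

variable {ι : Type}

/-- The affine substitution `x ↦ r + P x`. -/
noncomputable def aff (P : ℤ) (r : ι → ℤ) (Φ : MvPolynomial ι ℤ) : MvPolynomial ι ℤ :=
  bind₁ (fun i => C (r i) + C P * X i) Φ

theorem eval_aff (P : ℤ) (r a : ι → ℤ) (Φ : MvPolynomial ι ℤ) :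
    eval a (aff P r Φ) = eval (fun i => r i + P * a i) Φ := by
  unfold aff
  induction Φ using MvPolynomial.induction_on with
  | C z => simp
  | add p q hp hq => simp only [map_add, hp, hq]
  | mul_X p i hp => simp only [map_mul, hp, bind₁_X_right, map_add, eval_C, eval_X]

theorem eval₂_aff (P : ℤ) (r : ι → ℤ) {R : Type} [CommRing R] (b : ι → R)
    (Φ : MvPolynomial ι ℤ) :
    eval₂ (Int.castRingHom R) b (aff P r Φ) =
      eval₂ (Int.castRingHom R) (fun i => (r i : R) + (P : R) * b i) Φ := by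
  unfold aff
  induction Φ using MvPolynomial.induction_on with
  | C z => rw [bind₁_C_right, eval₂_C, eval₂_C]
  | add p q hp hq => simp only [map_add, eval₂_add, hp, hq]
  | mul_X p i hp =>
    rw [map_mul, eval₂_mul, hp, bind₁_X_right, eval₂_mul, eval₂_add, eval₂_mul, eval₂_C, eval₂_C,
      eval₂_X, eval₂_X]
    rfl

/-- The affine substitution over the rational numbers. -/
noncomputable def tau (P : ℚ) (r : ι → ℚ) : MvPolynomial ι ℚ →ₐ[ℚ] MvPolynomial ι ℚ :=
  bind₁ (fun i => C (r i) + C P * X i)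

theorem map_aff (P : ℤ) (r : ι → ℤ) (Φ : MvPolynomial ι ℤ) :
    map (Int.castRingHom ℚ) (aff P r Φ) =
      tau (P : ℚ) (fun i => (r i : ℚ)) (map (Int.castRingHom ℚ) Φ) := by
  unfold aff tau
  induction Φ using MvPolynomial.induction_on with
  | C z => simp
  | add p q hp hq => simp only [map_add, hp, hq]
  | mul_X p i hp =>
    simp only [map_mul, hp, bind₁_X_right, map_add, map_C, map_X]
    rfl

theorem tau_tau (P : ℚ) (hP : P ≠ 0) (r : ι → ℚ) (x : MvPolynomial ι ℚ) :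
    tau P r (tau P⁻¹ (fun i => - (P⁻¹ * r i)) x) = x := by
  unfold tau
  induction x using MvPolynomial.induction_on with
  | C z => simp
  | add p q hp hq => simp only [map_add, hp, hq]
  | mul_X p i hp =>
    rw [map_mul, map_mul, hp]
    congr 1
    rw [bind₁_X_right, map_add, map_mul, bind₁_X_right, bind₁_C_right, bind₁_C_right, mul_add,
      ← mul_assoc, ← C_mul, ← C_mul, inv_mul_cancel₀ hP, C_neg, C_1]
    ring

theorem tau_tau' (P : ℚ) (hP : P ≠ 0) (r : ι → ℚ) (x : MvPolynomial ι ℚ) :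
    tau P⁻¹ (fun i => - (P⁻¹ * r i)) (tau P r x) = x := by
  have h := tau_tau P⁻¹ (inv_ne_zero hP) (fun i => - (P⁻¹ * r i)) x
  rw [inv_inv] at h
  have h2 : (fun i => -(P * -(P⁻¹ * r i))) = r := by
    funext i
    field_simp
  rw [h2] at h
  exact h

theorem cop_aff (P : ℤ) (hP : P ≠ 0) (r : ι → ℤ) (Φ Ψ : MvPolynomial ι ℤ) (h : Cop Φ Ψ) :
    Cop (aff P r Φ) (aff P r Ψ) := by
  unfold Cop at h ⊢
  rw [map_aff, map_aff]
  have hP' : (P : ℚ) ≠ 0 := by exact_mod_cast hP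
  intro d h1 h2
  have h3 := map_dvd (tau (P : ℚ)⁻¹ (fun i => - ((P : ℚ)⁻¹ * (r i : ℚ)))) h1
  have h4 := map_dvd (tau (P : ℚ)⁻¹ (fun i => - ((P : ℚ)⁻¹ * (r i : ℚ)))) h2
  rw [tau_tau' (P : ℚ) hP'] at h3 h4
  have h5 := h h3 h4
  have h6 := h5.map (tau (P : ℚ) (fun i => (r i : ℚ)))
  rw [tau_tau (P : ℚ) hP'] at h6
  exact h6

end affine

/-- Integers of absolute value at most `H` in a residue class. -/
theorem count (H p : ℕ) (hp : 0 < p) (c : ZMod p) :
    ((Icc (-(H : ℤ)) H).filter fun x => ((x : ℤ) : ZMod p) = c).card * p ≤ 2 * H + 1 + p := by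
  have h1 : ((Icc (-(H : ℤ)) H).filter fun x => ((x : ℤ) : ZMod p) = c).card ≤
      (2 * H + 1) / p + 1 := by
    by_cases hne : ((Icc (-(H : ℤ)) H).filter fun x => ((x : ℤ) : ZMod p) = c).Nonempty
    · set S := (Icc (-(H : ℤ)) H).filter fun x => ((x : ℤ) : ZMod p) = c with hS
      set x₀ := S.min' hne with hx₀
      have hx₀S : x₀ ∈ S := S.min'_mem hne
      have h2 : ∀ x ∈ S, ∃ t : ℕ, t < (2 * H + 1) / p + 1 ∧ x = x₀ + p * t := by
        intro x hx
        have h3 : x₀ ≤ x := S.min'_le x hx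
        have h4 : ((x : ℤ) : ZMod p) = ((x₀ : ℤ) : ZMod p) := by
          rw [hS, mem_filter] at hx hx₀S
          rw [hx.2, hx₀S.2]
        rw [ZMod.intCast_eq_intCast_iff_dvd_sub] at h4
        obtain ⟨t, ht⟩ := h4
        have hx1 := (mem_Icc.1 (mem_filter.1 hx).1)
        have hx2 := (mem_Icc.1 (mem_filter.1 hx₀S).1)
        have hp' : (0 : ℤ) < p := by exact_mod_cast hp
        have ht0 : t ≤ 0 := by
          by_contra hcon
          push Not at hcon
          have : (0 : ℤ) < p * t := mul_pos hp' hcon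
          omega
        obtain ⟨s, hs⟩ := Int.eq_ofNat_of_zero_le (neg_nonneg.2 ht0)
        refine ⟨s, ?_, ?_⟩
        · rw [Nat.lt_succ_iff, Nat.le_div_iff_mul_le hp]
          have h7 : (s : ℤ) * p ≤ 2 * H := by
            have : (s : ℤ) * p = x - x₀ := by
              rw [← hs]
              linarith [ht]
            rw [this]
            omega
          have : s * p ≤ 2 * H := by exact_mod_cast h7
          omega
        · rw [← hs]
          linarith [ht]
      choose! t ht using h2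
      have h3 : S.card ≤ (range ((2 * H + 1) / p + 1)).card := by
        refine card_le_card_of_injOn t (fun x hx => ?_) ?_
        · rw [coe_range]
          exact (ht x hx).1
        · intro x hx y hy hxy
          rw [(ht x hx).2, (ht y hy).2, hxy]
      rw [card_range] at h3
      exact h3
    · rw [not_nonempty_iff_eq_empty.1 hne]
      simp
  calc ((Icc (-(H : ℤ)) H).filter fun x => ((x : ℤ) : ZMod p) = c).card * p
      ≤ ((2 * H + 1) / p + 1) * p := Nat.mul_le_mul_right _ h1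
    _ = (2 * H + 1) / p * p + p := by ring
    _ ≤ 2 * H + 1 + p := by
        have := Nat.div_mul_le_self (2 * H + 1) p
        omega

/-- The small primes. -/
theorem small {ι : Type} [Fintype ι] [DecidableEq ι] (Φ Ψ : MvPolynomial ι ℤ) (C₁ : ℕ)
    (P : ℤ) (r : ι → ℤ) (H p : ℕ) [Fact p.Prime] (hpH : p ≤ H) (hpP : ((P : ℤ) : ZMod p) ≠ 0)
    (h : Nat.card {a : ι → ZMod p // eval₂ (Int.castRingHom (ZMod p)) a Φ = 0 ∧
        eval₂ (Int.castRingHom (ZMod p)) a Ψ = 0} * p ^ 2 ≤ C₁ * p ^ Fintype.card ι) :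
    Set.ncard {a : ι → ℤ | a ∈ box ι H ∧ (p : ℤ) ∣ eval a (aff P r Φ) ∧
      (p : ℤ) ∣ eval a (aff P r Ψ)} * p ^ 2 ≤ C₁ * (4 * H) ^ Fintype.card ι := by
  classical
  have hp : 0 < p := (Fact.out : p.Prime).pos
  have : NeZero p := ⟨hp.ne'⟩
  set K : ℕ := (2 * H + 1 + p) / p with hK
  have hcount : ∀ c : ZMod p,
      ((Icc (-(H : ℤ)) H).filter fun x => ((x : ℤ) : ZMod p) = c).card ≤ K := by
    intro c
    rw [hK, Nat.le_div_iff_mul_le hp]
    exact count H p hp c
  have hKp : K * p ≤ 4 * H := by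
    have := Nat.div_mul_le_self (2 * H + 1 + p) p
    rw [← hK] at this
    omega
  let f : (ι → ℤ) → (ι → ZMod p) := fun a i => (a i : ZMod p)
  let T : Finset (ι → ℤ) := (box ι H).filter fun a =>
    (p : ℤ) ∣ eval a (aff P r Φ) ∧ (p : ℤ) ∣ eval a (aff P r Ψ)
  have hT : {a : ι → ℤ | a ∈ box ι H ∧ (p : ℤ) ∣ eval a (aff P r Φ) ∧
      (p : ℤ) ∣ eval a (aff P r Ψ)} = (T : Set (ι → ℤ)) := by
    ext a
    simp [T]
  rw [hT, Set.ncard_coe_finset]
  let Z : Finset (ι → ZMod p) := univ.filter fun a =>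
    eval₂ (Int.castRingHom (ZMod p)) a Φ = 0 ∧ eval₂ (Int.castRingHom (ZMod p)) a Ψ = 0
  have hZ : Z.card = Nat.card {a : ι → ZMod p // eval₂ (Int.castRingHom (ZMod p)) a Φ = 0 ∧
      eval₂ (Int.castRingHom (ZMod p)) a Ψ = 0} := by
    rw [Nat.card_eq_fintype_card, Fintype.card_subtype]
  rw [← hZ] at h
  have hfib : ∀ b ∈ T.image f, (T.filter fun a => f a = b).card ≤ K ^ Fintype.card ι := by
    intro b _
    have h1 : (T.filter fun a => f a = b) ⊆ Fintype.piFinset fun i =>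
        (Icc (-(H : ℤ)) H).filter fun x => ((x : ℤ) : ZMod p) = b i := by
      intro a ha
      rw [mem_filter] at ha
      rw [Fintype.mem_piFinset]
      intro i
      have h2 := (mem_filter.1 ha.1).1
      unfold box at h2
      rw [Fintype.mem_piFinset] at h2
      exact mem_filter.2 ⟨h2 i, congrFun ha.2 i⟩
    refine (card_le_card h1).trans ?_
    rw [Fintype.card_piFinset]
    calc ∏ i, ((Icc (-(H : ℤ)) H).filter fun x => ((x : ℤ) : ZMod p) = b i).card
        ≤ ∏ _i : ι, K := prod_le_prod' fun i _ => hcount (b i)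
      _ = K ^ Fintype.card ι := by rw [prod_const, card_univ]
  have himg : (T.image f).card ≤ Z.card := by
    refine card_le_card_of_injOn (fun b i => (r i : ZMod p) + ((P : ℤ) : ZMod p) * b i) ?_ ?_
    · intro b hb
      rw [mem_coe, mem_image] at hb
      obtain ⟨a, ha, rfl⟩ := hb
      rw [mem_coe, mem_filter]
      refine ⟨mem_univ _, ?_⟩
      have h3 := (mem_filter.1 ha).2
      have key : ∀ Θ : MvPolynomial ι ℤ, (p : ℤ) ∣ eval a (aff P r Θ) →
          eval₂ (Int.castRingHom (ZMod p)) (fun i => (r i : ZMod p) + ((P : ℤ) : ZMod p) * f a i) Θ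
            = 0 := by
        intro Θ hΘ
        rw [← eval₂_aff]
        have h4 : eval₂ (Int.castRingHom (ZMod p)) (f a) (aff P r Θ) =
            Int.castRingHom (ZMod p) (eval a (aff P r Θ)) := by
          have h5 := eval₂_comp_left (Int.castRingHom (ZMod p)) (RingHom.id ℤ) a (aff P r Θ)
          rw [RingHom.comp_id] at h5
          exact h5.symm
        rw [h4, eq_intCast, ZMod.intCast_zmod_eq_zero_iff_dvd]
        exact hΘ
      exact ⟨key Φ h3.1, key Ψ h3.2⟩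
    · intro b _ b' _ hbb
      funext i
      have := congrFun hbb i
      simp only [add_right_inj] at this
      exact mul_left_cancel₀ hpP this
  have h5 : T.card ≤ K ^ Fintype.card ι * Z.card :=
    (card_le_mul_card_image T _ hfib).trans (Nat.mul_le_mul_left _ himg)
  calc T.card * p ^ 2 ≤ K ^ Fintype.card ι * Z.card * p ^ 2 := Nat.mul_le_mul_right _ h5
    _ = K ^ Fintype.card ι * (Z.card * p ^ 2) := by ring
    _ ≤ K ^ Fintype.card ι * (C₁ * p ^ Fintype.card ι) := Nat.mul_le_mul_left _ h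
    _ = C₁ * (K * p) ^ Fintype.card ι := by rw [mul_pow]; ring
    _ ≤ C₁ * (4 * H) ^ Fintype.card ι := Nat.mul_le_mul_left _ (Nat.pow_le_pow_left hKp _)

/-- The sum over the primes between `p₀` and `H`. -/
theorem sum_small (N : ℕ → ℕ) (K p₀ H : ℕ) (hp₀ : 1 ≤ p₀)
    (h : ∀ p ∈ Ioc p₀ H, p.Prime → N p * p ^ 2 ≤ K) :
    p₀ * ∑ p ∈ (Ioc p₀ H).filter Nat.Prime, N p ≤ K := by
  by_cases hH : p₀ ≤ H
  · have h1 : ((∑ p ∈ (Ioc p₀ H).filter Nat.Prime, N p : ℕ) : ℝ) ≤ K * (p₀ : ℝ)⁻¹ := by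
      rw [Nat.cast_sum]
      calc ∑ p ∈ (Ioc p₀ H).filter Nat.Prime, (N p : ℝ)
          ≤ ∑ p ∈ (Ioc p₀ H).filter Nat.Prime, K * ((p : ℝ) ^ 2)⁻¹ := by
            refine sum_le_sum fun p hp => ?_
            rw [mem_filter] at hp
            have h2 := h p hp.1 hp.2
            have h3 : (0 : ℝ) < (p : ℝ) ^ 2 := by
              have := hp.2.pos
              positivity
            rw [← div_eq_mul_inv, le_div_iff₀ h3]
            exact_mod_cast h2
        _ ≤ ∑ p ∈ Ioc p₀ H, K * ((p : ℝ) ^ 2)⁻¹ := by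
            refine sum_le_sum_of_subset_of_nonneg (filter_subset _ _) fun p _ _ => ?_
            positivity
        _ = K * ∑ p ∈ Ioc p₀ H, ((p : ℝ) ^ 2)⁻¹ := by rw [mul_sum]
        _ ≤ K * (p₀ : ℝ)⁻¹ := by
            refine mul_le_mul_of_nonneg_left ?_ (Nat.cast_nonneg _)
            have h4 := sum_Ioc_inv_sq_le_sub (α := ℝ) (k := p₀) (n := H) (by omega) hH
            have h5 : (0 : ℝ) ≤ (H : ℝ)⁻¹ := by positivity
            linarith
    have h2 : (0 : ℝ) < p₀ := by exact_mod_cast hp₀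
    rw [← div_eq_mul_inv, le_div_iff₀ h2] at h1
    have h3 : ((p₀ * ∑ p ∈ (Ioc p₀ H).filter Nat.Prime, N p : ℕ) : ℝ) ≤ (K : ℝ) := by
      rw [Nat.cast_mul, mul_comm]
      exact h1
    exact_mod_cast h3
  · rw [Ioc_eq_empty (by omega)]
    simp

end EkL

open EkL in
/-- [EK] -/
theorem ek (h1 : S_EKA) (h2 : S_EKB) : S_EK := by
  classical
  intro ι _ _ Φ Ψ hcop
  obtain ⟨C₁, hC₁⟩ := h1 ι Φ Ψ hcop
  set M := Fintype.card ι with hM
  refine ⟨C₁ + C₁ * 4 ^ M + 4 ^ M + 1, ?_⟩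
  intro p₀ P hp₀ hP hpP r
  have hp₀1 : 1 ≤ p₀ := le_trans (Nat.le_add_left 1 _) hp₀
  have hp₀2 : C₁ < p₀ := by
    linarith [Nat.zero_le (C₁ * 4 ^ M), Nat.zero_le (4 ^ M)]
  -- reduce the residues
  set r' : ι → ℤ := fun i => r i % P with hr'
  have hPz : (0 : ℤ) < P := by exact_mod_cast hP
  obtain ⟨H₁, hH₁⟩ := h2 ι (aff P r' Φ) (aff P r' Ψ) (cop_aff P hPz.ne' r' Φ Ψ hcop) p₀
  refine ⟨P * (H₁ + 1), ?_⟩
  intro H hH
  set H' := H / P + 1 with hH'
  have hH'1 : H₁ ≤ H' := by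
    have : H₁ ≤ H / P := by
      rw [Nat.le_div_iff_mul_le hP]
      nlinarith
    omega
  have hPH : P * H' ≤ 2 * H := by
    have h3 : P * (H / P) ≤ H := Nat.mul_div_le H P
    have h4 : P ≤ H := by nlinarith
    rw [hH', mul_add]
    omega
  -- the map
  let g : (ι → ℤ) → (ι → ℤ) := fun a i => a i / P
  let A : Set (ι → ℤ) := {a : ι → ℤ | a ∈ box ι H ∧ (∀ i, (P : ℤ) ∣ a i - r i) ∧
          ∃ p : ℕ, p.Prime ∧ p₀ < p ∧ (p : ℤ) ∣ eval a Φ ∧ (p : ℤ) ∣ eval a Ψ}
  let L : Set (ι → ℤ) := {a : ι → ℤ | a ∈ box ι H' ∧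
        ∃ p : ℕ, p.Prime ∧ H' < p ∧ (p : ℤ) ∣ eval a (aff P r' Φ) ∧
          (p : ℤ) ∣ eval a (aff P r' Ψ)}
  let N : ℕ → Set (ι → ℤ) := fun p => {a : ι → ℤ | a ∈ box ι H' ∧
      (p : ℤ) ∣ eval a (aff P r' Φ) ∧ (p : ℤ) ∣ eval a (aff P r' Ψ)}
  have hNfin : ∀ p, (N p).Finite := fun p => (box ι H').finite_toSet.subset fun a ha => ha.1
  have hLfin : L.Finite := (box ι H').finite_toSet.subset fun a ha => ha.1
  let B : Set (ι → ℤ) := L ∪ ⋃ p ∈ (Ioc p₀ H').filter Nat.Prime, N p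
  have hBfin : B.Finite := by
    refine hLfin.union ?_
    exact Set.Finite.biUnion ((Ioc p₀ H').filter Nat.Prime).finite_toSet fun p _ => hNfin p
  have hdiv : ∀ a : ι → ℤ, (∀ i, (P : ℤ) ∣ a i - r i) → ∀ i, a i = r' i + P * g a i := by
    intro a ha i
    have h3 : a i % P = r' i := (Int.modEq_iff_dvd.2 (ha i)).symm
    rw [← h3]
    exact (Int.emod_add_mul_ediv (a i) P).symm
  have hcard : A.ncard ≤ B.ncard := by
    refine Set.ncard_le_ncard_of_injOn g ?_ ?_ hBfin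
    · rintro a ⟨ha1, ha2, p, hp, hpp, hp1, hp2⟩
      have h3 := hdiv a ha2
      have hev : ∀ Θ : MvPolynomial ι ℤ, eval (g a) (aff P r' Θ) = eval a Θ := by
        intro Θ
        rw [eval_aff]
        congr 2
        funext i
        exact (h3 i).symm
      have hbox : g a ∈ box ι H' := by
        unfold box at ha1 ⊢
        rw [Fintype.mem_piFinset] at ha1 ⊢
        intro i
        have h4 := mem_Icc.1 (ha1 i)
        rw [mem_Icc]
        have h5 : ((H' : ℕ) : ℤ) = (H : ℤ) / P + 1 := by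
          rw [hH']
          push_cast
          rfl
        have h6 : (H : ℤ) < ((H : ℤ) / P + 1) * P := by
          have := Int.lt_ediv_add_one_mul_self (H : ℤ) hPz
          exact this
        constructor
        · change -((H' : ℕ) : ℤ) ≤ a i / P
          rw [Int.le_ediv_iff_mul_le hPz, h5]
          nlinarith
        · change a i / P ≤ ((H' : ℕ) : ℤ)
          have : a i / P ≤ (H : ℤ) / P := Int.ediv_le_ediv hPz h4.2
          rw [h5]
          omega
      by_cases hpH : H' < p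
      · exact Or.inl ⟨hbox, p, hp, hpH, by rw [hev]; exact hp1, by rw [hev]; exact hp2⟩
      · refine Or.inr ?_
        rw [Set.mem_iUnion₂]
        refine ⟨p, mem_filter.2 ⟨mem_Ioc.2 ⟨hpp, by omega⟩, hp⟩, hbox, ?_, ?_⟩
        · rw [hev]; exact hp1
        · rw [hev]; exact hp2
    · intro a ha b hb hab
      funext i
      rw [hdiv a ha.2.1 i, hdiv b hb.2.1 i, hab]
  have hBle : B.ncard ≤ L.ncard + ∑ p ∈ (Ioc p₀ H').filter Nat.Prime, (N p).ncard := by
    refine (Set.ncard_union_le _ _).trans (Nat.add_le_add_left ?_ _)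
    exact Finset.set_ncard_biUnion_le _ _
  have hL : p₀ * L.ncard ≤ (2 * H' + 1) ^ M := hH₁ H' hH'1
  have hS : p₀ * ∑ p ∈ (Ioc p₀ H').filter Nat.Prime, (N p).ncard ≤ C₁ * (4 * H') ^ M := by
    refine sum_small (fun p => (N p).ncard) _ p₀ H' hp₀1 ?_
    intro p hp hpr
    have : Fact p.Prime := ⟨hpr⟩
    rw [mem_Ioc] at hp
    refine small Φ Ψ C₁ P r' H' p hp.2 ?_ (hC₁ p (hp₀2.trans hp.1))
    rw [Ne, ZMod.intCast_zmod_eq_zero_iff_dvd]
    intro hdv
    have h3 : p ∣ P := by exact_mod_cast hdv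
    have := hpP p hpr h3
    omega
  have hfin : p₀ * P ^ M * A.ncard ≤ P ^ M * ((2 * H' + 1) ^ M + C₁ * (4 * H') ^ M) := by
    calc p₀ * P ^ M * A.ncard ≤ p₀ * P ^ M *
        (L.ncard + ∑ p ∈ (Ioc p₀ H').filter Nat.Prime, (N p).ncard) :=
          Nat.mul_le_mul_left _ (hcard.trans hBle)
      _ = P ^ M * (p₀ * L.ncard + p₀ * ∑ p ∈ (Ioc p₀ H').filter Nat.Prime, (N p).ncard) := by ring
      _ ≤ _ := Nat.mul_le_mul_left _ (Nat.add_le_add hL hS)
  refine hfin.trans ?_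
  have e1 : P ^ M * (2 * H' + 1) ^ M ≤ 4 ^ M * (2 * H + 1) ^ M := by
    rw [← mul_pow, ← mul_pow]
    refine Nat.pow_le_pow_left ?_ _
    have h3 : 1 ≤ H' := Nat.le_add_left 1 _
    nlinarith
  have e2 : P ^ M * (C₁ * (4 * H') ^ M) ≤ C₁ * 4 ^ M * (2 * H + 1) ^ M := by
    have : P ^ M * (4 * H') ^ M ≤ 4 ^ M * (2 * H + 1) ^ M := by
      rw [← mul_pow, ← mul_pow]
      refine Nat.pow_le_pow_left ?_ _
      nlinarith
    calc P ^ M * (C₁ * (4 * H') ^ M) = C₁ * (P ^ M * (4 * H') ^ M) := by ring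
      _ ≤ C₁ * (4 ^ M * (2 * H + 1) ^ M) := Nat.mul_le_mul_left _ this
      _ = _ := by ring
  calc P ^ M * ((2 * H' + 1) ^ M + C₁ * (4 * H') ^ M)
      = P ^ M * (2 * H' + 1) ^ M + P ^ M * (C₁ * (4 * H') ^ M) := by ring
    _ ≤ 4 ^ M * (2 * H + 1) ^ M + C₁ * 4 ^ M * (2 * H + 1) ^ M := Nat.add_le_add e1 e2
    _ = (C₁ * 4 ^ M + 4 ^ M) * (2 * H + 1) ^ M := by ring
    _ ≤ (C₁ + C₁ * 4 ^ M + 4 ^ M + 1) * (2 * H + 1) ^ M := by
        refine Nat.mul_le_mul_right _ ?_
        linarith [Nat.zero_le C₁]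

end Pool.Agent.Helper21K9.SV
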