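import Pool.Agent.Helper21K9.SV.Elim

/-! The sieve for two coprime polynomials: common zeros modulo `p`. -/

set_option autoImplicit false

open MvPolynomial

namespace Pool.Agent.Helper21K9.SV

namespace EkaL

open Elim

/-- Schwartz-Zippel. -/
theorem sz {A : Type} [CommRing A] [IsDomain A] [DecidableEq A] {n : ℕ}
    (p : MvPolynomial (Fin n) A) (hp : p ≠ 0) (S : Finset A) (hS : S.Nonempty) :
    ((Fintype.piFinset fun _ => S).filter (fun x => eval x p = 0)).card * S.card ≤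
      p.totalDegree * S.card ^ n := by
  have h := schwartz_zippel_totalDegree hp S
  have hc : (0 : ℚ≥0) < S.card := by exact_mod_cast hS.card_pos
  rw [div_le_div_iff₀ (by positivity) hc] at h
  exact_mod_cast h

theorem cop_symm {ι : Type} {Φ Ψ : MvPolynomial ι ℤ} (h : Cop Φ Ψ) : Cop Ψ Φ :=
  IsRelPrime.symm h

theorem cop_ne {ι : Type} {Φ Ψ : MvPolynomial ι ℤ} (h : Cop Φ Ψ) : Φ ≠ 0 ∨ Ψ ≠ 0 := by
  by_contra hcon
  push Not at hcon
  obtain ⟨rfl, rfl⟩ := hcon
  have h1 : IsUnit (0 : MvPolynomial ι ℚ) := h (by simp) (by simp)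
  exact not_isUnit_zero h1

theorem cop_rename {ι κ : Type} (e : ι ≃ κ) {Φ Ψ : MvPolynomial ι ℤ} (h : Cop Φ Ψ) :
    Cop (rename e Φ) (rename e Ψ) := by
  intro d h1 h2
  rw [map_rename] at h1 h2
  have k1 : rename e.symm d ∣ map (Int.castRingHom ℚ) Φ := by
    have := map_dvd (rename e.symm) h1
    rw [rename_rename] at this
    simpa using this
  have k2 : rename e.symm d ∣ map (Int.castRingHom ℚ) Ψ := by
    have := map_dvd (rename e.symm) h2
    rw [rename_rename] at this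
    simpa using this
  have k3 := (h k1 k2).map (rename (R := ℚ) e)
  rw [rename_rename] at k3
  simpa using k3

/-- The statement for one pair. -/
def PA {ι : Type} [Fintype ι] (Φ Ψ : MvPolynomial ι ℤ) : Prop :=
  ∃ C : ℕ, ∀ p : ℕ, ∀ [Fact p.Prime], C < p →
      Nat.card {a : ι → ZMod p // eval₂ (Int.castRingHom (ZMod p)) a Φ = 0 ∧
        eval₂ (Int.castRingHom (ZMod p)) a Ψ = 0} * p ^ 2 ≤ C * p ^ Fintype.card ι

theorem PA_symm {ι : Type} [Fintype ι] {Φ Ψ : MvPolynomial ι ℤ} (h : PA Φ Ψ) : PA Ψ Φ := by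
  obtain ⟨C, hC⟩ := h
  refine ⟨C, fun p _ hp => ?_⟩
  have := hC p hp
  simp only [and_comm] at this ⊢
  exact this

theorem PA_rename {ι κ : Type} [Fintype ι] [Fintype κ] (e : ι ≃ κ) {Φ Ψ : MvPolynomial ι ℤ}
    (h : PA (rename e Φ) (rename e Ψ)) : PA Φ Ψ := by
  obtain ⟨C, hC⟩ := h
  refine ⟨C, fun p _ hp => ?_⟩
  have := hC p hp
  rw [Fintype.card_congr e]
  convert this using 2
  apply Nat.card_congr
  refine Equiv.subtypeEquiv (Equiv.arrowCongr e (Equiv.refl _)) ?_
  intro a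
  rw [eval₂_rename, eval₂_rename]
  have h1 : ((e.arrowCongr (Equiv.refl (ZMod p))) a) ∘ e = a := by
    funext i
    simp [Equiv.arrowCongr]
  rw [h1]

theorem intCast_ne {p : ℕ} (r : ℤ) (hr : r ≠ 0) (h : r.natAbs < p) : (r : ZMod p) ≠ 0 := by
  intro h0
  rw [ZMod.intCast_zmod_eq_zero_iff_dvd] at h0
  have h1 := Int.natAbs_dvd_natAbs.2 h0
  rw [Int.natAbs_natCast] at h1
  exact absurd (Nat.le_of_dvd (Int.natAbs_pos.2 hr) h1) (by omega)

theorem co_inv {n : ℕ} {S : Type} [CommRing S] (l : Fin n → ℤ) (a : Fin (n + 1) → S) :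
    co l (fun i => a i.succ - (l i : S) * a 0) (a 0) = a := by
  funext i
  refine Fin.cases ?_ (fun i => ?_) i
  · simp [co]
  · simp [co]

theorem PA_succ {n : ℕ} (Φ Ψ : MvPolynomial (Fin (n + 1)) ℤ) (h : Cop Φ Ψ) (hΦ : Φ ≠ 0) :
    PA Φ Ψ := by
  classical
  obtain ⟨l, D, c, R, hc, hR, H⟩ := elim Φ Ψ h hΦ
  obtain ⟨m, hm⟩ : ∃ m, coeff m R ≠ 0 := by
    by_contra hcon
    push Not at hcon
    exact hR (MvPolynomial.ext _ _ (fun m => by rw [hcon m, coeff_zero]))
  refine ⟨D * R.totalDegree + c.natAbs + (coeff m R).natAbs, fun p _ hp => ?_⟩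
  have hcp : (c : ZMod p) ≠ 0 := intCast_ne c hc (by omega)
  have hRp : map (Int.castRingHom (ZMod p)) R ≠ 0 := by
    intro h0
    have h1 : coeff m (map (Int.castRingHom (ZMod p)) R) = 0 := by rw [h0, coeff_zero]
    rw [coeff_map] at h1
    exact intCast_ne (coeff m R) hm (by omega) h1
  choose Z hZ1 hZ2 using H (ZMod p) hcp
  set s : Finset (Fin (n + 1) → ZMod p) := Finset.univ.filter (fun a =>
    eval₂ (Int.castRingHom (ZMod p)) a Φ = 0 ∧ eval₂ (Int.castRingHom (ZMod p)) a Ψ = 0) with hs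
  have hcard : Nat.card {a : Fin (n + 1) → ZMod p // eval₂ (Int.castRingHom (ZMod p)) a Φ = 0 ∧
        eval₂ (Int.castRingHom (ZMod p)) a Ψ = 0} = s.card := by
    rw [Nat.card_eq_fintype_card, Fintype.card_subtype]
  set φ : (Fin (n + 1) → ZMod p) → (Fin n → ZMod p) :=
    fun a i => a i.succ - (l i : ZMod p) * a 0 with hφ
  set B : Finset (Fin n → ZMod p) := (Fintype.piFinset fun _ => (Finset.univ : Finset (ZMod p))).filter
    (fun x => eval x (map (Int.castRingHom (ZMod p)) R) = 0) with hB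
  have himg : s.image φ ⊆ B := by
    intro b hb
    rw [Finset.mem_image] at hb
    obtain ⟨a, ha, rfl⟩ := hb
    rw [hs, Finset.mem_filter] at ha
    rw [hB, Finset.mem_filter]
    refine ⟨by simp, ?_⟩
    rw [eval_map]
    have h1 := co_inv l a
    have h2 := hZ2 (φ a) (a 0)
    rw [hφ] at h2
    simp only [h1] at h2
    exact (h2 ha.2.1).2 ha.2.2
  have hle : s.card ≤ D * (s.image φ).card := by
    apply Finset.card_le_mul_card_image
    intro b hb
    refine le_trans ?_ (hZ1 b)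
    apply Finset.card_le_card_of_injOn (fun a => a 0)
    · intro a ha
      rw [Finset.mem_coe, Finset.mem_filter] at ha
      obtain ⟨ha1, rfl⟩ := ha
      rw [hs, Finset.mem_filter] at ha1
      have h1 := co_inv l a
      have h2 := hZ2 (φ a) (a 0)
      rw [hφ] at h2
      simp only [h1] at h2
      exact (h2 ha1.2.1).1
    · intro a ha a' ha' haa
      rw [Finset.mem_coe, Finset.mem_filter] at ha ha'
      have h1 := co_inv l a
      have h2 := co_inv l a'
      have h3 : φ a = φ a' := ha.2.trans ha'.2.symm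
      simp only at haa
      rw [← h1, ← h2]
      change co l (φ a) (a 0) = co l (φ a') (a' 0)
      rw [h3, haa]
  have hsz := sz (map (Int.castRingHom (ZMod p)) R) hRp Finset.univ Finset.univ_nonempty
  rw [Finset.card_univ, ZMod.card] at hsz
  have hdeg : (map (Int.castRingHom (ZMod p)) R).totalDegree ≤ R.totalDegree :=
    Finset.sup_mono (support_map_subset _ _)
  rw [hcard, Fintype.card_fin]
  have h1 : s.card ≤ D * B.card := hle.trans (Nat.mul_le_mul_left _ (Finset.card_le_card himg))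
  have h2 : B.card * p ≤ R.totalDegree * p ^ n := hsz.trans (Nat.mul_le_mul_right _ hdeg)
  calc s.card * p ^ 2 ≤ (D * B.card) * p ^ 2 := Nat.mul_le_mul_right _ h1
    _ = D * (B.card * p) * p := by ring
    _ ≤ D * (R.totalDegree * p ^ n) * p := by
        exact Nat.mul_le_mul_right _ (Nat.mul_le_mul_left _ h2)
    _ = (D * R.totalDegree) * p ^ (n + 1) := by ring
    _ ≤ _ := Nat.mul_le_mul_right _ (by omega)

theorem PA_zero (Φ Ψ : MvPolynomial (Fin 0) ℤ) (hΦ : Φ ≠ 0) : PA Φ Ψ := by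
  obtain ⟨r, rfl⟩ : ∃ r, Φ = C r := ⟨_, Φ.eq_C_of_isEmpty⟩
  have hr : r ≠ 0 := by
    rintro rfl
    simp at hΦ
  refine ⟨r.natAbs, fun p _ hp => ?_⟩
  have hemp : IsEmpty {a : Fin 0 → ZMod p // eval₂ (Int.castRingHom (ZMod p)) a (C r) = 0 ∧
        eval₂ (Int.castRingHom (ZMod p)) a Ψ = 0} := by
    refine ⟨fun a => ?_⟩
    have h1 := a.2.1
    rw [eval₂_C] at h1
    exact intCast_ne r hr hp h1
  rw [Nat.card_of_isEmpty, zero_mul]
  exact Nat.zero_le _

theorem PA_fin (N : ℕ) (Φ Ψ : MvPolynomial (Fin N) ℤ) (h : Cop Φ Ψ) (hΦ : Φ ≠ 0) : PA Φ Ψ := by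
  cases N with
  | zero => exact PA_zero Φ Ψ hΦ
  | succ n => exact PA_succ Φ Ψ h hΦ

end EkaL

open EkaL in
/-- The number of common zeros modulo `p` of two coprime polynomials. -/
theorem eka : S_EKA := by
  intro ι _ _ Φ Ψ h
  have e := Fintype.equivFin ι
  have h' := cop_rename e h
  apply PA_rename e
  rcases cop_ne h' with h1 | h1
  · exact PA_fin _ _ _ h' h1
  · exact PA_symm (PA_fin _ _ _ (cop_symm h') h1)

end Pool.Agent.Helper21K9.SV
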