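import Pool.Agent.Helper21K9.SV.Eka

/-! The sieve for two coprime polynomials: large primes. -/

set_option autoImplicit false

open MvPolynomial

namespace Pool.Agent.Helper21K9.SV

namespace EkbL

open Elim EkaL

/-- The statement for one pair. -/
def PB {ι : Type} [Fintype ι] [DecidableEq ι] (Φ Ψ : MvPolynomial ι ℤ) : Prop :=
  ∀ k : ℕ, ∃ H₀ : ℕ, ∀ H : ℕ, H₀ ≤ H →
      k * Set.ncard {a : ι → ℤ | a ∈ box ι H ∧
        ∃ p : ℕ, p.Prime ∧ H < p ∧ (p : ℤ) ∣ eval a Φ ∧ (p : ℤ) ∣ eval a Ψ} ≤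
      (2 * H + 1) ^ Fintype.card ι

theorem PB_symm {ι : Type} [Fintype ι] [DecidableEq ι] {Φ Ψ : MvPolynomial ι ℤ} (h : PB Φ Ψ) :
    PB Ψ Φ := by
  intro k
  obtain ⟨H₀, hH⟩ := h k
  refine ⟨H₀, fun H hH' => ?_⟩
  have h1 := hH H hH'
  have h2 : {a : ι → ℤ | a ∈ box ι H ∧
        ∃ p : ℕ, p.Prime ∧ H < p ∧ (p : ℤ) ∣ eval a Ψ ∧ (p : ℤ) ∣ eval a Φ} =
      {a : ι → ℤ | a ∈ box ι H ∧
        ∃ p : ℕ, p.Prime ∧ H < p ∧ (p : ℤ) ∣ eval a Φ ∧ (p : ℤ) ∣ eval a Ψ} := by
    ext a
    simp only [Set.mem_ofPred_eq, and_comm]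
  rw [h2]
  exact h1

theorem mem_box {ι : Type} [Fintype ι] [DecidableEq ι] (H : ℕ) (a : ι → ℤ) :
    a ∈ box ι H ↔ ∀ i, |a i| ≤ (H : ℤ) := by
  simp [box, abs_le]

theorem PB_rename {ι κ : Type} [Fintype ι] [Fintype κ] [DecidableEq ι] [DecidableEq κ]
    (e : ι ≃ κ) {Φ Ψ : MvPolynomial ι ℤ}
    (h : PB (rename e Φ) (rename e Ψ)) : PB Φ Ψ := by
  intro k
  obtain ⟨H₀, hH⟩ := h k
  refine ⟨H₀, fun H hH' => ?_⟩
  have h1 := hH H hH'
  rw [Fintype.card_congr e]
  have h2 : {a : ι → ℤ | a ∈ box ι H ∧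
        ∃ p : ℕ, p.Prime ∧ H < p ∧ (p : ℤ) ∣ eval a Φ ∧ (p : ℤ) ∣ eval a Ψ} =
      (fun a : κ → ℤ => a ∘ e) '' {a : κ → ℤ | a ∈ box κ H ∧
        ∃ p : ℕ, p.Prime ∧ H < p ∧ (p : ℤ) ∣ eval a (rename e Φ) ∧
          (p : ℤ) ∣ eval a (rename e Ψ)} := by
    ext a
    constructor
    · rintro ⟨ha, p, hp, hHp, h3, h4⟩
      have h5 : (a ∘ e.symm) ∘ e = a := by
        funext i
        simp
      refine ⟨a ∘ e.symm, ⟨?_, p, hp, hHp, ?_, ?_⟩, h5⟩
      · rw [mem_box] at ha ⊢
        intro i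
        exact ha _
      · rw [eval_rename, h5]; exact h3
      · rw [eval_rename, h5]; exact h4
    · rintro ⟨a', ⟨ha, p, hp, hHp, h3, h4⟩, rfl⟩
      refine ⟨?_, p, hp, hHp, ?_, ?_⟩
      · rw [mem_box] at ha ⊢
        intro i
        exact ha _
      · rwa [eval_rename] at h3
      · rwa [eval_rename] at h4
  rw [h2, Set.ncard_image_of_injective]
  · exact h1
  · intro a a' haa
    funext i
    have := congrFun haa (e.symm i)
    simpa using this

theorem dvd_iff {ι : Type} (p : ℕ) (a : ι → ℤ) (Φ : MvPolynomial ι ℤ) :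
    (p : ℤ) ∣ eval a Φ ↔
      eval₂ (Int.castRingHom (ZMod p)) (fun i => (a i : ZMod p)) Φ = 0 := by
  rw [← ZMod.intCast_zmod_eq_zero_iff_dvd]
  have := eval₂_comp_left (Int.castRingHom (ZMod p)) (RingHom.id ℤ) a Φ
  rw [RingHom.comp_id] at this
  have h2 : ((eval a Φ : ℤ) : ZMod p) =
      eval₂ (Int.castRingHom (ZMod p)) (fun i => (a i : ZMod p)) Φ := this
  rw [h2]

theorem cast_co {n : ℕ} (p : ℕ) (l : Fin n → ℤ) (b : Fin n → ℤ) (t : ℤ) :
    (fun i => ((co l b t i : ℤ) : ZMod p)) = co l (fun i => (b i : ZMod p)) (t : ZMod p) := by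
  funext i
  refine Fin.cases ?_ (fun i => ?_) i
  · simp [co]
  · simp [co]

theorem primes_card (M : ℤ) (hM : M ≠ 0) (H s : ℕ) (hH : 2 ≤ H) (h : M.natAbs ≤ H ^ s) :
    (M.natAbs.primeFactors.filter (fun p => H < p)).card ≤ s := by
  set Q := M.natAbs.primeFactors.filter (fun p => H < p) with hQ
  have h1 : H ^ Q.card ≤ ∏ p ∈ Q, p := by
    rw [← Finset.prod_const]
    apply Finset.prod_le_prod'
    intro p hp
    rw [hQ, Finset.mem_filter] at hp
    exact hp.2.le
  have h2 : ∏ p ∈ Q, p ≤ ∏ p ∈ M.natAbs.primeFactors, p := by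
    apply Finset.prod_le_prod_of_subset_of_one_le' (Finset.filter_subset _ _)
    intro p hp _
    exact (Nat.prime_of_mem_primeFactors hp).one_le
  have h3 : ∏ p ∈ M.natAbs.primeFactors, p ≤ M.natAbs :=
    Nat.le_of_dvd (Int.natAbs_pos.2 hM) (Nat.prod_primeFactors_dvd _)
  exact (Nat.pow_le_pow_iff_right (by omega)).1 (h1.trans (h2.trans (h3.trans h)))

theorem abs_eval_le {n : ℕ} (R : MvPolynomial (Fin n) ℤ) (B : ℕ) (hB : 1 ≤ B) (b : Fin n → ℤ)
    (hb : ∀ i, |b i| ≤ (B : ℤ)) :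
    (eval b R).natAbs ≤ (∑ m ∈ R.support, (coeff m R).natAbs) * B ^ R.totalDegree := by
  rw [eval_eq', Finset.sum_mul]
  refine (Int.natAbs_sum_le _ _).trans ?_
  apply Finset.sum_le_sum
  intro m hm
  rw [Int.natAbs_mul]
  apply Nat.mul_le_mul_left
  have h1 : (∏ i, b i ^ m i).natAbs ≤ B ^ ∑ i, m i := by
    rw [← Int.natAbsHom_apply, map_prod, ← Finset.prod_pow_eq_pow_sum]
    apply Finset.prod_le_prod'
    intro i _
    rw [map_pow]
    apply Nat.pow_le_pow_left
    rw [Int.natAbsHom_apply]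
    have := hb i
    rw [Int.abs_eq_natAbs] at this
    exact_mod_cast this
  refine h1.trans (Nat.pow_le_pow_right hB ?_)
  have h2 := le_totalDegree hm
  rw [Finsupp.sum_fintype _ _ (by simp)] at h2
  exact h2

theorem card_Icc (H : ℕ) : (Finset.Icc (-(H : ℤ)) H).card = 2 * H + 1 := by
  rw [Int.card_Icc]
  omega

/-- The number of integers of size at most `H` in a set of residue classes modulo `p > H`. -/
theorem fib (p H D : ℕ) (hp : H < p) (Z : Finset (ZMod p)) (hZ : Z.card ≤ D) (T : Finset ℤ)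
    (hT : T ⊆ Finset.Icc (-(H : ℤ)) H) (h : ∀ t ∈ T, (t : ZMod p) ∈ Z) : T.card ≤ 2 * D := by
  classical
  have h1 : T.card ≤ (Z ×ˢ (Finset.univ : Finset Bool)).card := by
    apply Finset.card_le_card_of_injOn (fun t : ℤ => ((t : ZMod p), decide (t < 0)))
    · intro t ht
      rw [Finset.mem_coe] at ht
      rw [Finset.mem_coe, Finset.mem_product]
      exact ⟨h t ht, Finset.mem_univ _⟩
    · intro t ht t' ht' htt
      rw [Finset.mem_coe] at ht ht'
      simp only [Prod.mk.injEq, decide_eq_decide] at htt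
      obtain ⟨h1, h2⟩ := htt
      rw [ZMod.intCast_eq_intCast_iff_dvd_sub] at h1
      have h3 := Finset.mem_Icc.1 (hT ht)
      have h4 := Finset.mem_Icc.1 (hT ht')
      obtain ⟨q, hq⟩ := h1
      have h5 : |t' - t| < p := by
        rw [abs_lt]
        by_cases h6 : t < 0
        · have h7 := h2.1 h6
          constructor <;> omega
        · have h7 : ¬ t' < 0 := fun h8 => h6 (h2.2 h8)
          constructor <;> omega
      have h6 : q = 0 := by
        by_contra hq0
        have h7 : 1 ≤ |q| := Int.one_le_abs hq0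
        rw [hq, abs_mul, Nat.abs_cast] at h5
        nlinarith
      rw [h6, mul_zero] at hq
      omega
  rw [Finset.card_product, Finset.card_univ, Fintype.card_bool] at h1
  omega

theorem PB_succ {n : ℕ} (Φ Ψ : MvPolynomial (Fin (n + 1)) ℤ) (h : Cop Φ Ψ) (hΦ : Φ ≠ 0) :
    PB Φ Ψ := by
  classical
  obtain ⟨l, D, c, R, hc, hR, HZ⟩ := elim Φ Ψ h hΦ
  intro k
  set r := R.totalDegree with hr
  set κ : ℕ := 1 + ∑ i, (l i).natAbs with hκ
  set L : ℕ := ∑ m ∈ R.support, (coeff m R).natAbs with hL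
  have hκ1 : 1 ≤ κ := by omega
  refine ⟨2 + c.natAbs + L * κ ^ r + k * (r + 2 * D * (r + 1)) * κ ^ n, fun H hH => ?_⟩
  have hH2 : 2 ≤ H := by omega
  have hHc : c.natAbs ≤ H := by omega
  have hHL : L * κ ^ r ≤ H := by omega
  have hHk : k * (r + 2 * D * (r + 1)) * κ ^ n ≤ H := by omega
  set φ : (Fin (n + 1) → ℤ) → (Fin n → ℤ) := fun a i => a i.succ - l i * a 0 with hφ
  have hco : ∀ a, co l (φ a) (a 0) = a := by
    intro a
    have := co_inv l a
    simpa using this
  set S : Finset (Fin (n + 1) → ℤ) := (box (Fin (n + 1)) H).filter (fun a =>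
    ∃ p : ℕ, p.Prime ∧ H < p ∧ (p : ℤ) ∣ eval a Φ ∧ (p : ℤ) ∣ eval a Ψ) with hS
  have hncard : Set.ncard {a : Fin (n + 1) → ℤ | a ∈ box (Fin (n + 1)) H ∧
        ∃ p : ℕ, p.Prime ∧ H < p ∧ (p : ℤ) ∣ eval a Φ ∧ (p : ℤ) ∣ eval a Ψ} = S.card := by
    rw [← Set.ncard_coe_finset]
    congr 1
    ext a
    simp [hS]
  have hφbox : ∀ a ∈ S, φ a ∈ box (Fin n) (κ * H) := by
    intro a ha
    rw [hS, Finset.mem_filter] at ha
    have ha1 := (mem_box H a).1 ha.1
    rw [mem_box]
    intro i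
    have h1 : |l i| ≤ ((∑ i, (l i).natAbs : ℕ) : ℤ) := by
      rw [Int.abs_eq_natAbs]
      exact_mod_cast Finset.single_le_sum (f := fun i => (l i).natAbs)
        (fun _ _ => Nat.zero_le _) (Finset.mem_univ i)
    have h2 := ha1 i.succ
    have h3 := ha1 0
    calc |φ a i| = |a i.succ - l i * a 0| := rfl
      _ ≤ |a i.succ| + |l i * a 0| := abs_sub _ _
      _ = |a i.succ| + |l i| * |a 0| := by rw [abs_mul]
      _ ≤ H + ((∑ i, (l i).natAbs : ℕ) : ℤ) * H := by gcongr
      _ = ((κ * H : ℕ) : ℤ) := by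
          rw [hκ]
          push_cast
          ring
  have hbox : (box (Fin n) (κ * H)).card = (2 * (κ * H) + 1) ^ n := by
    rw [box, Fintype.card_piFinset_const, card_Icc]
  -- the vectors with R = 0
  set S0 := S.filter (fun a => eval (φ a) R = 0) with hS0
  set S1 := S.filter (fun a => ¬ eval (φ a) R = 0) with hS1
  have hsplit : S.card = S0.card + S1.card := (Finset.card_filter_add_card_filter_not _).symm
  have hinj : ∀ a a' : Fin (n + 1) → ℤ, φ a = φ a' → a 0 = a' 0 → a = a' := by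
    intro a a' h1 h2
    rw [← hco a, ← hco a', h1, h2]
  have b0 : S0.card ≤ r * (2 * (κ * H) + 1) ^ n := by
    set B0 : Finset (Fin n → ℤ) := (Fintype.piFinset fun _ =>
      Finset.Icc (-((κ * H : ℕ) : ℤ)) ((κ * H : ℕ) : ℤ)).filter (fun x => eval x R = 0) with hB0
    have h1 : S0.card ≤ (2 * H + 1) * (S0.image φ).card := by
      apply Finset.card_le_mul_card_image
      intro b _
      rw [← card_Icc H]
      apply Finset.card_le_card_of_injOn (fun a => a 0)
      · intro a ha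
        rw [Finset.mem_coe, Finset.mem_filter, hS0, Finset.mem_filter, hS, Finset.mem_filter] at ha
        have := (mem_box H a).1 ha.1.1.1 0
        rw [abs_le] at this
        simpa using this
      · intro a ha a' ha' haa
        rw [Finset.mem_coe, Finset.mem_filter] at ha ha'
        exact hinj a a' (ha.2.trans ha'.2.symm) haa
    have h2 : S0.image φ ⊆ B0 := by
      intro b hb
      rw [Finset.mem_image] at hb
      obtain ⟨a, ha, rfl⟩ := hb
      rw [hS0, Finset.mem_filter] at ha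
      rw [hB0, Finset.mem_filter]
      exact ⟨hφbox a ha.1, ha.2⟩
    have h3 := sz R hR (Finset.Icc (-((κ * H : ℕ) : ℤ)) ((κ * H : ℕ) : ℤ))
      ⟨0, by simp; positivity⟩
    rw [card_Icc] at h3
    have h4 : S0.card * (2 * (κ * H) + 1) ≤
        (r * (2 * (κ * H) + 1) ^ n) * (2 * (κ * H) + 1) := by
      calc S0.card * (2 * (κ * H) + 1)
          ≤ ((2 * H + 1) * B0.card) * (2 * (κ * H) + 1) :=
            Nat.mul_le_mul_right _ (h1.trans (Nat.mul_le_mul_left _ (Finset.card_le_card h2)))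
        _ = (2 * H + 1) * (B0.card * (2 * (κ * H) + 1)) := by ring
        _ ≤ (2 * H + 1) * (r * (2 * (κ * H) + 1) ^ n) := Nat.mul_le_mul_left _ h3
        _ ≤ (2 * (κ * H) + 1) * (r * (2 * (κ * H) + 1) ^ n) := by
            apply Nat.mul_le_mul_right
            have : H ≤ κ * H := Nat.le_mul_of_pos_left _ (by omega)
            omega
        _ = _ := by ring
    exact Nat.le_of_mul_le_mul_right h4 (by omega)
  have b1 : S1.card ≤ (2 * D * (r + 1)) * (2 * (κ * H) + 1) ^ n := by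
    have h2 : S1.image φ ⊆ box (Fin n) (κ * H) := by
      intro b hb
      rw [Finset.mem_image] at hb
      obtain ⟨a, ha, rfl⟩ := hb
      rw [hS1, Finset.mem_filter] at ha
      exact hφbox a ha.1
    have h1 : S1.card ≤ (2 * D * (r + 1)) * (S1.image φ).card := by
      apply Finset.card_le_mul_card_image
      intro b hb
      have hbb := h2 hb
      rw [Finset.mem_image] at hb
      obtain ⟨a₁, ha₁, hab⟩ := hb
      have hRb : eval b R ≠ 0 := by
        rw [hS1, Finset.mem_filter] at ha₁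
        rw [← hab]
        exact ha₁.2
      have hbnd : (eval b R).natAbs ≤ H ^ (r + 1) := by
        have h3 := abs_eval_le R (κ * H) (Nat.one_le_iff_ne_zero.2
          (Nat.mul_ne_zero (by omega) (by omega))) b ((mem_box _ _).1 hbb)
        refine h3.trans ?_
        calc L * (κ * H) ^ r = (L * κ ^ r) * H ^ r := by ring
          _ ≤ H * H ^ r := Nat.mul_le_mul_right _ hHL
          _ = H ^ (r + 1) := by ring
      set Q := (eval b R).natAbs.primeFactors.filter (fun p => H < p) with hQ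
      have hQc : Q.card ≤ r + 1 := primes_card _ hRb H (r + 1) hH2 hbnd
      set T : ℕ → Finset ℤ := fun p => (Finset.Icc (-(H : ℤ)) H).filter
        (fun t => (p : ℤ) ∣ eval (co l b t) Φ) with hT
      have hTc : ∀ p ∈ Q, (T p).card ≤ 2 * D := by
        intro p hp
        rw [hQ, Finset.mem_filter] at hp
        have : Fact p.Prime := ⟨Nat.prime_of_mem_primeFactors hp.1⟩
        obtain ⟨Z, hZ1, hZ2⟩ := HZ (ZMod p) (intCast_ne c hc (by omega))
          (fun i => (b i : ZMod p))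
        refine fib p H D hp.2 Z hZ1 (T p) (Finset.filter_subset _ _) ?_
        intro t ht
        rw [hT] at ht
        have ht2 := (Finset.mem_filter.1 ht).2
        rw [dvd_iff, cast_co] at ht2
        exact (hZ2 _ ht2).1
      calc _ ≤ (Q.biUnion T).card := by
            apply Finset.card_le_card_of_injOn (fun a => a 0)
            · intro a ha
              rw [Finset.mem_coe, Finset.mem_filter, hS1, Finset.mem_filter, hS,
                Finset.mem_filter] at ha
              obtain ⟨⟨⟨ha1, p, hp, hHp, h3, h4⟩, ha2⟩, ha3⟩ := ha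
              rw [Finset.mem_coe, Finset.mem_biUnion]
              have h5 : co l b (a 0) = a := by rw [← ha3]; exact hco a
              have : Fact p.Prime := ⟨hp⟩
              obtain ⟨Z, hZ1, hZ2⟩ := HZ (ZMod p) (intCast_ne c hc (by omega))
                (fun i => (b i : ZMod p))
              refine ⟨p, ?_, ?_⟩
              · rw [hQ, Finset.mem_filter, Nat.mem_primeFactors]
                refine ⟨⟨hp, ?_, by simpa using hRb⟩, hHp⟩
                have h6 : (p : ℤ) ∣ eval b R := by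
                  rw [dvd_iff]
                  have h3' := h3
                  have h4' := h4
                  rw [← h5, dvd_iff, cast_co] at h3' h4'
                  exact (hZ2 _ h3').2 h4'
                exact Int.natCast_dvd.1 h6
              · rw [hT, Finset.mem_filter]
                refine ⟨?_, ?_⟩
                · have := (mem_box H a).1 ha1 0
                  rw [abs_le] at this
                  simpa using this
                · rw [h5]; exact h3
            · intro a ha a' ha' haa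
              rw [Finset.mem_coe, Finset.mem_filter] at ha ha'
              exact hinj a a' (ha.2.trans ha'.2.symm) haa
        _ ≤ ∑ p ∈ Q, (T p).card := Finset.card_biUnion_le
        _ ≤ ∑ _p ∈ Q, 2 * D := Finset.sum_le_sum hTc
        _ = Q.card * (2 * D) := by rw [Finset.sum_const, smul_eq_mul]
        _ ≤ (r + 1) * (2 * D) := Nat.mul_le_mul_right _ hQc
        _ = 2 * D * (r + 1) := by ring
    rw [← hbox]
    exact h1.trans (Nat.mul_le_mul_left _ (Finset.card_le_card h2))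
  rw [hncard, Fintype.card_fin, hsplit]
  have h5 : 2 * (κ * H) + 1 ≤ κ * (2 * H + 1) := by nlinarith
  calc k * (S0.card + S1.card)
      ≤ k * (r * (2 * (κ * H) + 1) ^ n + (2 * D * (r + 1)) * (2 * (κ * H) + 1) ^ n) :=
        Nat.mul_le_mul_left _ (add_le_add b0 b1)
    _ = k * (r + 2 * D * (r + 1)) * (2 * (κ * H) + 1) ^ n := by ring
    _ ≤ k * (r + 2 * D * (r + 1)) * (κ * (2 * H + 1)) ^ n :=
        Nat.mul_le_mul_left _ (Nat.pow_le_pow_left h5 n)
    _ = (k * (r + 2 * D * (r + 1)) * κ ^ n) * (2 * H + 1) ^ n := by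
        rw [mul_pow]
        ring
    _ ≤ (2 * H + 1) * (2 * H + 1) ^ n := Nat.mul_le_mul_right _ (by omega)
    _ = (2 * H + 1) ^ (n + 1) := by ring

theorem PB_zero (Φ Ψ : MvPolynomial (Fin 0) ℤ) (hΦ : Φ ≠ 0) : PB Φ Ψ := by
  obtain ⟨r, rfl⟩ : ∃ r, Φ = C r := ⟨_, Φ.eq_C_of_isEmpty⟩
  have hr : r ≠ 0 := by
    rintro rfl
    simp at hΦ
  intro k
  refine ⟨r.natAbs, fun H hH => ?_⟩
  have hemp : {a : Fin 0 → ℤ | a ∈ box (Fin 0) H ∧
        ∃ p : ℕ, p.Prime ∧ H < p ∧ (p : ℤ) ∣ eval a (C r) ∧ (p : ℤ) ∣ eval a Ψ} = ∅ := by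
    ext a
    simp only [Set.mem_ofPred_eq, Set.mem_empty_iff_false, iff_false]
    rintro ⟨_, p, hp, hHp, h1, _⟩
    rw [eval_C] at h1
    have h2 := Nat.le_of_dvd (Int.natAbs_pos.2 hr) (Int.natCast_dvd.1 h1)
    omega
  rw [hemp, Set.ncard_empty, mul_zero]
  exact Nat.zero_le _

theorem PB_fin (N : ℕ) (Φ Ψ : MvPolynomial (Fin N) ℤ) (h : Cop Φ Ψ) (hΦ : Φ ≠ 0) : PB Φ Ψ := by
  cases N with
  | zero => exact PB_zero Φ Ψ hΦ
  | succ n => exact PB_succ Φ Ψ h hΦ

end EkbL

open EkaL EkbL in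
/-- Integral vectors of size at most `H` and primes greater than `H`. -/
theorem ekb : S_EKB := by
  intro ι _ _ Φ Ψ h
  have e := Fintype.equivFin ι
  have h' := cop_rename e h
  apply PB_rename e
  rcases cop_ne h' with h1 | h1
  · exact PB_fin _ _ _ h' h1
  · exact PB_symm (PB_fin _ _ _ (cop_symm h') h1)

end Pool.Agent.Helper21K9.SV
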