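import Pool.Agent.Helper21K9.SV.Stm

/-! The sieve for two coprime polynomials: elimination of one variable after a unimodular
change of coordinates. -/

set_option autoImplicit false

open MvPolynomial

namespace Pool.Agent.Helper21K9.SV.Elim

section Shear

variable {n : ℕ}

/-- The new coordinates `(t, b_i + l_i t)`. -/
def co {S : Type} [CommRing S] (l : Fin n → ℤ) (b : Fin n → S) (t : S) : Fin (n + 1) → S :=
  Fin.cons t (fun i => b i + (l i : S) * t)

/-- The change of variables, as polynomials in the first new variable. -/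
noncomputable def th (S : Type) [CommRing S] (l : Fin n → ℤ) :
    MvPolynomial (Fin (n + 1)) S →+* Polynomial (MvPolynomial (Fin n) S) :=
  eval₂Hom (Polynomial.C.comp MvPolynomial.C)
    (fun i => Polynomial.C ((Fin.cons 0 (fun i => X i) : Fin (n + 1) → MvPolynomial (Fin n) S) i) +
      Polynomial.C (((Fin.cons 1 l : Fin (n + 1) → ℤ) i : ℤ) : MvPolynomial (Fin n) S) *
        Polynomial.X)

/-- The inverse change of variables. -/
noncomputable def ht (S : Type) [CommRing S] (l : Fin n → ℤ) :
    Polynomial (MvPolynomial (Fin n) S) →+* MvPolynomial (Fin (n + 1)) S :=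
  Polynomial.eval₂RingHom (eval₂Hom MvPolynomial.C
    (fun i => X i.succ - ((l i : ℤ) : MvPolynomial (Fin (n + 1)) S) * X 0)) (X 0)

theorem th_C (S : Type) [CommRing S] (l : Fin n → ℤ) (c : S) :
    th S l (C c) = Polynomial.C (C c) := by
  simp [th]

theorem th_zero (S : Type) [CommRing S] (l : Fin n → ℤ) :
    th S l (X 0) = Polynomial.X := by
  simp [th]

theorem th_succ (S : Type) [CommRing S] (l : Fin n → ℤ) (i : Fin n) :
    th S l (X i.succ) = Polynomial.C (X i) + (l i : Polynomial (MvPolynomial (Fin n) S)) *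
      Polynomial.X := by
  simp [th]

theorem ht_th (S : Type) [CommRing S] (l : Fin n → ℤ) (p : MvPolynomial (Fin (n + 1)) S) :
    ht S l (th S l p) = p := by
  have h : (ht S l).comp (th S l) = RingHom.id _ := by
    apply MvPolynomial.ringHom_ext
    · intro c
      simp [th_C, ht]
    · intro i
      refine Fin.cases ?_ (fun i => ?_) i
      · simp [th_zero, ht]
      · rw [RingHom.comp_apply, th_succ, map_add, map_mul, map_intCast]
        simp [ht]
  exact congrFun (congrArg DFunLike.coe h) p

theorem th_ht (S : Type) [CommRing S] (l : Fin n → ℤ)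
    (p : Polynomial (MvPolynomial (Fin n) S)) :
    th S l (ht S l p) = p := by
  have h : (th S l).comp (ht S l) = RingHom.id _ := by
    apply Polynomial.ringHom_ext'
    · apply MvPolynomial.ringHom_ext
      · intro c
        simp [th_C, ht]
      · intro i
        simp [th_succ, th_zero, ht]
    · simp [th_zero, ht]
  exact congrFun (congrArg DFunLike.coe h) p

theorem th_map {S T : Type} [CommRing S] [CommRing T] (φ : S →+* T) (l : Fin n → ℤ)
    (p : MvPolynomial (Fin (n + 1)) S) :
    Polynomial.map (MvPolynomial.map φ) (th S l p) = th T l (MvPolynomial.map φ p) := by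
  have h : (Polynomial.mapRingHom (MvPolynomial.map φ)).comp (th S l) =
      (th T l).comp (MvPolynomial.map φ) := by
    apply MvPolynomial.ringHom_ext
    · intro c
      simp [th_C]
    · intro i
      refine Fin.cases ?_ (fun i => ?_) i
      · simp [th_zero]
      · simp [th_succ]
  exact congrFun (congrArg DFunLike.coe h) p

theorem th_eval {S : Type} [CommRing S] (l : Fin n → ℤ) (b : Fin n → S) (t : S)
    (p : MvPolynomial (Fin (n + 1)) ℤ) :
    Polynomial.eval t (Polynomial.map (eval₂Hom (Int.castRingHom S) b) (th ℤ l p)) =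
      eval₂ (Int.castRingHom S) (co l b t) p := by
  have h : (Polynomial.evalRingHom t).comp ((Polynomial.mapRingHom
      (eval₂Hom (Int.castRingHom S) b)).comp (th ℤ l)) =
      eval₂Hom (Int.castRingHom S) (co l b t) := by
    apply MvPolynomial.ringHom_ext
    · intro c
      simp
    · intro i
      refine Fin.cases ?_ (fun i => ?_) i
      · simp [th_zero, co]
      · simp [th_succ, co]
  exact congrFun (congrArg DFunLike.coe h) p

/-- Coprimality after the change of variables. -/
theorem isUnit_of_dvd (l : Fin n → ℤ) (Φ Ψ : MvPolynomial (Fin (n + 1)) ℤ) (h : Cop Φ Ψ)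
    (d : Polynomial (MvPolynomial (Fin n) ℤ)) (h1 : d ∣ th ℤ l Φ) (h2 : d ∣ th ℤ l Ψ) :
    d.natDegree = 0 := by
  set d' := Polynomial.map (MvPolynomial.map (Int.castRingHom ℚ)) d with hd'
  have k1 : d' ∣ th ℚ l (map (Int.castRingHom ℚ) Φ) := by
    rw [← th_map]
    exact Polynomial.map_dvd _ h1
  have k2 : d' ∣ th ℚ l (map (Int.castRingHom ℚ) Ψ) := by
    rw [← th_map]
    exact Polynomial.map_dvd _ h2
  have k3 : ht ℚ l d' ∣ map (Int.castRingHom ℚ) Φ := by
    rw [← ht_th ℚ l (map (Int.castRingHom ℚ) Φ)]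
    exact map_dvd _ k1
  have k4 : ht ℚ l d' ∣ map (Int.castRingHom ℚ) Ψ := by
    rw [← ht_th ℚ l (map (Int.castRingHom ℚ) Ψ)]
    exact map_dvd _ k2
  have k5 : IsUnit (ht ℚ l d') := h k3 k4
  have k6 : IsUnit d' := by
    rw [← th_ht ℚ l d']
    exact k5.map _
  have k7 : d'.natDegree = 0 := Polynomial.natDegree_eq_zero_of_isUnit k6
  rw [← k7, hd', Polynomial.natDegree_map_eq_of_injective]
  exact MvPolynomial.map_injective _ (Int.cast_injective (α := ℚ))

/-- Elimination. -/
theorem exists_R (l : Fin n → ℤ) (Φ Ψ : MvPolynomial (Fin (n + 1)) ℤ) (h : Cop Φ Ψ)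
    (hΦ : Φ ≠ 0) :
    ∃ (R : MvPolynomial (Fin n) ℤ) (U V : Polynomial (MvPolynomial (Fin n) ℤ)), R ≠ 0 ∧
      Polynomial.C R = U * th ℤ l Φ + V * th ℤ l Ψ := by
  classical
  let A := MvPolynomial (Fin n) ℤ
  let K := FractionRing A
  have hinj : Function.Injective (algebraMap A K) := IsFractionRing.injective A K
  let _ : NormalizedGCDMonoid A := Nonempty.some inferInstance
  set f := th ℤ l Φ with hf
  set g := th ℤ l Ψ with hg
  have hf0 : f ≠ 0 := by
    intro h0
    apply hΦ
    rw [← ht_th ℤ l Φ, ← hf, h0, map_zero]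
  have hf0' : f.map (algebraMap A K) ≠ 0 := by
    rwa [Ne, Polynomial.map_eq_zero_iff hinj]
  have hrel : IsRelPrime (f.map (algebraMap A K)) (g.map (algebraMap A K)) := by
    intro d hd1 hd2
    have hd0 : d ≠ 0 := by
      rintro rfl
      exact hf0' (zero_dvd_iff.1 hd1)
    set N := IsLocalization.integerNormalization (nonZeroDivisors A) d with hN
    set d₀ := N.primPart with hd₀
    have hprim : d₀.IsPrimitive := Polynomial.isPrimitive_primPart _
    obtain ⟨c, c0, hc⟩ := IsLocalization.integerNormalization_spec (nonZeroDivisors A) d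
    have hdd : d₀.map (algebraMap A K) ∣ d := by
      have h1 : d₀ ∣ N := by
        rw [hd₀]
        exact ⟨Polynomial.C N.content, by
          conv_lhs => rw [N.eq_C_content_mul_primPart]
          ring⟩
      have h2 : d₀.map (algebraMap A K) ∣ N.map (algebraMap A K) := Polynomial.map_dvd _ h1
      rw [← hN] at hc
      rw [hc] at h2
      have hc' : IsUnit (algebraMap A K c) := by
        rw [isUnit_iff_ne_zero]
        intro h3
        exact nonZeroDivisors.ne_zero c0 (hinj (by rw [h3, map_zero]))
      have h3 : c • d = Polynomial.C (algebraMap A K c) * d := by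
        rw [Algebra.smul_def]
        rfl
      rw [h3] at h2
      exact (IsUnit.dvd_mul_left (hc'.map Polynomial.C)).1 h2
    have e1 : d₀ ∣ f := hprim.dvd_of_fraction_map_dvd_fraction_map (K := K) (hdd.trans hd1)
    have e2 : d₀ ∣ g := hprim.dvd_of_fraction_map_dvd_fraction_map (K := K) (hdd.trans hd2)
    have e3 : d₀.natDegree = 0 := isUnit_of_dvd l Φ Ψ h d₀ e1 e2
    have e4 : IsUnit d₀ := by
      rw [Polynomial.natDegree_eq_zero] at e3
      obtain ⟨a, ha⟩ := e3
      rw [← ha]
      apply IsUnit.map
      apply hprim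
      rw [ha]
    exact Polynomial.isUnit_or_eq_zero_of_isUnit_integerNormalization_primPart hd0 e4
  have hcop : IsCoprime (f.map (algebraMap A K)) (g.map (algebraMap A K)) := hrel.isCoprime
  obtain ⟨u, v, huv⟩ := hcop
  obtain ⟨c, c0, hc⟩ := IsLocalization.integerNormalization_spec (nonZeroDivisors A) u
  obtain ⟨e, e0, he⟩ := IsLocalization.integerNormalization_spec (nonZeroDivisors A) v
  set U := IsLocalization.integerNormalization (nonZeroDivisors A) u
  set V := IsLocalization.integerNormalization (nonZeroDivisors A) v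
  refine ⟨c * e, Polynomial.C e * U, Polynomial.C c * V,
    mul_ne_zero (nonZeroDivisors.ne_zero c0) (nonZeroDivisors.ne_zero e0), ?_⟩
  apply Polynomial.map_injective (algebraMap A K) hinj
  have hc' : c • u = Polynomial.C (algebraMap A K c) * u := by
    rw [Algebra.smul_def]
    rfl
  have he' : e • v = Polynomial.C (algebraMap A K e) * v := by
    rw [Algebra.smul_def]
    rfl
  rw [hc'] at hc
  rw [he'] at he
  simp only [Polynomial.map_add, Polynomial.map_mul, Polynomial.map_C, hc, he, map_mul]
  linear_combination (-Polynomial.C (algebraMap A K c) * Polynomial.C (algebraMap A K e)) * huv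

theorem prod_line {A ι : Type} [CommRing A] (a b : ι → A) (m : ι → ℕ) (s : Finset ι) :
    (∏ i ∈ s, (Polynomial.C (a i) + Polynomial.C (b i) * Polynomial.X) ^ m i).natDegree ≤
        ∑ i ∈ s, m i ∧
      (∏ i ∈ s, (Polynomial.C (a i) + Polynomial.C (b i) * Polynomial.X) ^ m i).coeff
        (∑ i ∈ s, m i) = ∏ i ∈ s, b i ^ m i := by
  classical
  have h1 : ∀ i, (Polynomial.C (a i) + Polynomial.C (b i) * Polynomial.X).natDegree ≤ 1 := by
    intro i
    rw [add_comm]
    exact Polynomial.natDegree_linear_le
  have h2 : ∀ i, ((Polynomial.C (a i) + Polynomial.C (b i) * Polynomial.X) ^ m i).natDegree ≤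
      m i := by
    intro i
    refine le_trans Polynomial.natDegree_pow_le ?_
    calc m i * (Polynomial.C (a i) + Polynomial.C (b i) * Polynomial.X).natDegree ≤ m i * 1 :=
          Nat.mul_le_mul_left _ (h1 i)
      _ = m i := mul_one _
  have h3 : ∀ i, ((Polynomial.C (a i) + Polynomial.C (b i) * Polynomial.X) ^ m i).coeff (m i) =
      b i ^ m i := by
    intro i
    have := Polynomial.coeff_pow_of_natDegree_le (m := m i) (h1 i)
    rw [mul_one] at this
    rw [this]
    simp [Polynomial.coeff_C]
  induction s using Finset.induction_on with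
  | empty => simp
  | insert i s hi ih =>
    rw [Finset.prod_insert hi, Finset.sum_insert hi, Finset.prod_insert hi]
    constructor
    · exact le_trans Polynomial.natDegree_mul_le (add_le_add (h2 i) ih.1)
    · rw [Polynomial.coeff_mul_add_eq_of_natDegree_le (h2 i) ih.1, h3 i, ih.2]

/-- The leading coefficient after the change of variables. -/
theorem lead (l : Fin n → ℤ) (Φ : MvPolynomial (Fin (n + 1)) ℤ) (d : ℕ)
    (hd : Φ.totalDegree ≤ d) :
    (th ℤ l Φ).natDegree ≤ d ∧
      (th ℤ l Φ).coeff d =
        C (eval (Fin.cons 1 l : Fin (n + 1) → ℤ) (homogeneousComponent d Φ)) := by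
  classical
  have hsum : ∀ m ∈ Φ.support, ∑ i, m i ≤ d := by
    intro m hm
    have h1 := le_totalDegree hm
    rw [Finsupp.sum_fintype _ _ (by simp)] at h1
    exact h1.trans hd
  have hth : th ℤ l Φ = ∑ m ∈ Φ.support, Polynomial.C (C (coeff m Φ)) *
      ∏ i, (Polynomial.C ((Fin.cons 0 (fun i => X i) : Fin (n + 1) → MvPolynomial (Fin n) ℤ) i) +
      Polynomial.C (((Fin.cons 1 l : Fin (n + 1) → ℤ) i : ℤ) : MvPolynomial (Fin n) ℤ) *
        Polynomial.X) ^ m i := by
    unfold th
    rw [coe_eval₂Hom, eval₂_eq']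
    rfl
  rw [hth]
  constructor
  · apply Polynomial.natDegree_sum_le_of_forall_le
    intro m hm
    refine le_trans Polynomial.natDegree_mul_le ?_
    rw [Polynomial.natDegree_C, zero_add]
    exact (prod_line _ _ m _).1.trans (hsum m hm)
  · rw [Polynomial.finsetSum_coeff, homogeneousComponent_apply, map_sum, map_sum,
      Finset.sum_filter]
    apply Finset.sum_congr rfl
    intro m hm
    rw [Polynomial.coeff_C_mul]
    have hdeg : m.degree = ∑ i, m i := Finsupp.degree_eq_sum m
    by_cases h : m.degree = d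
    · rw [if_pos h, ← h, hdeg, (prod_line _ _ m _).2, eval_monomial,
        Finsupp.prod_fintype _ _ (by simp)]
      simp
    · rw [if_neg h]
      have h1 : ∑ i, m i < d := by
        have := hsum m hm
        omega
      rw [Polynomial.coeff_eq_zero_of_natDegree_lt ((prod_line _ _ m _).1.trans_lt h1), mul_zero]

/-- A form which is not zero does not vanish identically on `x 0 = 1`. -/
theorem exists_l (G : MvPolynomial (Fin (n + 1)) ℤ) (d : ℕ) (hG : G.IsHomogeneous d)
    (h0 : G ≠ 0) : ∃ l : Fin n → ℤ, eval (Fin.cons 1 l : Fin (n + 1) → ℤ) G ≠ 0 := by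
  by_contra hcon
  push Not at hcon
  set P : MvPolynomial (Fin n) ℤ :=
    eval₂ MvPolynomial.C (Fin.cons 1 (fun i => X i) : Fin (n + 1) → MvPolynomial (Fin n) ℤ) G
    with hP
  have hev : ∀ (S : Type) [CommRing S] (z : Fin n → S),
      eval₂ (Int.castRingHom S) z P = eval₂ (Int.castRingHom S) (Fin.cons 1 z) G := by
    intro S _ z
    have h : (eval₂Hom (Int.castRingHom S) z).comp (eval₂Hom MvPolynomial.C
        (Fin.cons 1 (fun i => X i) : Fin (n + 1) → MvPolynomial (Fin n) ℤ)) =
        eval₂Hom (Int.castRingHom S) (Fin.cons 1 z) := by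
      apply MvPolynomial.ringHom_ext
      · intro c
        simp
      · intro i
        refine Fin.cases ?_ (fun i => ?_) i
        · simp
        · simp
    exact congrFun (congrArg DFunLike.coe h) G
  have hP0 : P = 0 := by
    apply MvPolynomial.funext
    intro z
    have h1 := hev ℤ z
    have h2 : (Int.castRingHom ℤ) = RingHom.id ℤ := RingHom.ext_int _ _
    rw [h2] at h1
    rw [map_zero]
    exact h1.trans (hcon z)
  have hXG : X 0 * G = 0 := by
    apply MvPolynomial.funext
    intro x
    rw [map_mul, eval_X, map_zero]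
    by_cases hx : x 0 = 0
    · rw [hx, zero_mul]
    · have hxq : (x 0 : ℚ) ≠ 0 := by exact_mod_cast hx
      have h1 := hev ℚ (fun i => (x i.succ : ℚ) / x 0)
      rw [hP0, eval₂_zero] at h1
      have h2 : eval₂ (Int.castRingHom ℚ) (fun i => (x i : ℚ)) G =
          (x 0 : ℚ) ^ d * eval₂ (Int.castRingHom ℚ)
            (Fin.cons 1 (fun i : Fin n => (x i.succ : ℚ) / x 0)) G := by
        rw [eval₂_eq', eval₂_eq', Finset.mul_sum]
        apply Finset.sum_congr rfl
        intro m hm
        have h3 : ∑ i, m i = d := by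
          rw [← Finsupp.degree_eq_sum m]
          by_contra h
          exact (mem_support_iff.1 hm) (hG.coeff_eq_zero h)
        have h4 : ∀ i, (x i : ℚ) = (x 0 : ℚ) *
            (Fin.cons 1 (fun i : Fin n => (x i.succ : ℚ) / x 0) : Fin (n + 1) → ℚ) i := by
          intro i
          refine Fin.cases ?_ (fun i => ?_) i
          · simp
          · simp only [Fin.cons_succ]
            field_simp
        have h5 : ∏ i, (x i : ℚ) ^ m i = (x 0 : ℚ) ^ d * ∏ i,
            (Fin.cons 1 (fun i : Fin n => (x i.succ : ℚ) / x 0) : Fin (n + 1) → ℚ) i ^ m i := by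
          rw [← h3, ← Finset.prod_pow_eq_pow_sum, ← Finset.prod_mul_distrib]
          apply Finset.prod_congr rfl
          intro i _
          rw [← mul_pow, ← h4 i]
        rw [h5]
        ring
      rw [← h1, mul_zero] at h2
      have h3 : eval₂ (Int.castRingHom ℚ) (fun i => (x i : ℚ)) G = ((eval x G : ℤ) : ℚ) := by
        have := eval₂_comp_left (Int.castRingHom ℚ) (RingHom.id ℤ) x G
        rw [RingHom.comp_id] at this
        exact this.symm
      rw [h3] at h2
      have h4 : eval x G = 0 := by exact_mod_cast h2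
      rw [h4, mul_zero]
  rcases mul_eq_zero.1 hXG with h | h
  · exact X_ne_zero 0 h
  · exact h0 h

theorem comp_ne_zero {ι : Type} (Φ : MvPolynomial ι ℤ) (hΦ : Φ ≠ 0) :
    homogeneousComponent Φ.totalDegree Φ ≠ 0 := by
  classical
  have hne : Φ.support.Nonempty := by
    rwa [Finset.nonempty_iff_ne_empty, Ne, support_eq_empty]
  obtain ⟨m, hm, hmax⟩ := Finset.exists_max_image Φ.support (fun m => m.degree) hne
  have hdeg : m.degree = Φ.totalDegree := by
    apply le_antisymm
    · exact le_totalDegree hm
    · exact Finset.sup_le (fun m' hm' => hmax m' hm')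
  intro h0
  have h1 := coeff_homogeneousComponent Φ.totalDegree Φ m
  rw [h0, if_pos hdeg, coeff_zero] at h1
  exact (mem_support_iff.1 hm) h1.symm

/-- **Elimination.** After a unimodular change of coordinates `a = (t, b_i + l_i t)` there are, for
every `b` over a field in which `c` is not zero, at most `D` values of `t` with `Φ(a) = 0`; and
`R(b) = 0` if `Φ(a) = Ψ(a) = 0`. -/
theorem elim (Φ Ψ : MvPolynomial (Fin (n + 1)) ℤ) (h : Cop Φ Ψ) (hΦ : Φ ≠ 0) :
    ∃ (l : Fin n → ℤ) (D : ℕ) (c : ℤ) (R : MvPolynomial (Fin n) ℤ), c ≠ 0 ∧ R ≠ 0 ∧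
      ∀ (S : Type) [Field S], (c : S) ≠ 0 → ∀ b : Fin n → S, ∃ Z : Finset S, Z.card ≤ D ∧
        ∀ t : S, eval₂ (Int.castRingHom S) (co l b t) Φ = 0 → t ∈ Z ∧
          (eval₂ (Int.castRingHom S) (co l b t) Ψ = 0 → eval₂ (Int.castRingHom S) b R = 0) := by
  classical
  set d := Φ.totalDegree with hd
  obtain ⟨l, hl⟩ := exists_l (homogeneousComponent d Φ) d (homogeneousComponent_isHomogeneous d Φ)
    (comp_ne_zero Φ hΦ)
  obtain ⟨R, U, V, hR, hUV⟩ := exists_R l Φ Ψ h hΦ
  obtain ⟨hdeg, hcoe⟩ := lead l Φ d le_rfl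
  refine ⟨l, d, eval (Fin.cons 1 l : Fin (n + 1) → ℤ) (homogeneousComponent d Φ), R, hl, hR, ?_⟩
  intro S _ hc b
  set f : Polynomial S := Polynomial.map (eval₂Hom (Int.castRingHom S) b) (th ℤ l Φ) with hf
  have hf0 : f ≠ 0 := by
    intro h0
    have h1 : f.coeff d = 0 := by rw [h0, Polynomial.coeff_zero]
    rw [hf, Polynomial.coeff_map, hcoe] at h1
    apply hc
    rw [← h1]
    simp
  refine ⟨f.roots.toFinset, ?_, ?_⟩
  · refine (Multiset.toFinset_card_le _).trans ((Polynomial.card_roots' f).trans ?_)
    exact Polynomial.natDegree_map_le.trans hdeg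
  · intro t ht
    rw [← th_eval] at ht
    refine ⟨?_, ?_⟩
    · rw [Multiset.mem_toFinset, Polynomial.mem_roots hf0]
      exact ht
    · intro ht'
      rw [← th_eval] at ht'
      have h1 := congrArg (fun p => Polynomial.eval t
        (Polynomial.map (eval₂Hom (Int.castRingHom S) b) p)) hUV
      simp only [Polynomial.map_C, Polynomial.eval_C, Polynomial.map_add, Polynomial.map_mul,
        Polynomial.eval_add, Polynomial.eval_mul] at h1
      rw [ht, ht', mul_zero, mul_zero, add_zero] at h1
      exact h1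

end Shear

end Pool.Agent.Helper21K9.SV.Elim
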